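import Pool.Agent.Work.MP_92c8f1_an.Hedge.Mod
import Mathlib.Topology.ContinuousMap.SecondCountableSpace

/-!
The closed submodule generated by the values of the cocycle: a unit-linked contractive
coefficient module, separable when the base space is second countable.
-/

set_option maxSynthPendingDepth 3

namespace Pool.Agent.Work.MP_92c8f1_an.Sep

open Pool.Agent.Work.MP_92c8f1_an Pool.Agent.Work.MP_92c8f1_an.Hedge Function TopologicalSpace

universe u

section Abstract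

variable {A : Type*} [NormedCommRing A] [NormedAlgebra ℂ A]
  {W : Type*} [NormedAddCommGroup W] [NormedSpace ℂ W]

/-- the closed submodule generated by the values of `T` -/
noncomputable def gen (l : A →L[ℂ] W →L[ℂ] W) {n : ℕ}
    (T : ContinuousMultilinearMap ℂ (fun _ : Fin n => A) W) : Submodule ℂ W :=
  (Submodule.span ℂ (Set.range fun p : A × (Fin n → A) => l p.1 (T p.2))).topologicalClosure

theorem gen_le (l : A →L[ℂ] W →L[ℂ] W) {n : ℕ}
    (T : ContinuousMultilinearMap ℂ (fun _ : Fin n => A) W) {X : Submodule ℂ W}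
    (hc : IsClosed (X : Set W)) (h : ∀ a c, l a (T c) ∈ X) : gen l T ≤ X :=
  Submodule.topologicalClosure_minimal _
    (Submodule.span_le.2 (Set.range_subset_iff.2 fun p => h p.1 p.2)) hc

theorem mem_gen (l : A →L[ℂ] W →L[ℂ] W) {n : ℕ}
    (T : ContinuousMultilinearMap ℂ (fun _ : Fin n => A) W) (a : A) (c : Fin n → A) :
    l a (T c) ∈ gen l T :=
  Submodule.le_topologicalClosure _ (Submodule.subset_span ⟨(a, c), rfl⟩)

theorem isClosed_gen (l : A →L[ℂ] W →L[ℂ] W) {n : ℕ}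
    (T : ContinuousMultilinearMap ℂ (fun _ : Fin n => A) W) : IsClosed (gen l T : Set W) :=
  Submodule.isClosed_topologicalClosure _

theorem act_mem_gen (l : A →L[ℂ] W →L[ℂ] W) (hl : ∀ a b F, l (a * b) F = l a (l b F)) {n : ℕ}
    (T : ContinuousMultilinearMap ℂ (fun _ : Fin n => A) W) (a : A) :
    ∀ F ∈ gen l T, l a F ∈ gen l T :=
  gen_le l T (X := (gen l T).comap (l a).toLinearMap)
    ((isClosed_gen l T).preimage (l a).continuous) fun b c => by
      change l a (l b (T c)) ∈ gen l T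
      rw [← hl]
      exact mem_gen l T _ c

theorem separable_gen [SeparableSpace A] (l : A →L[ℂ] W →L[ℂ] W) {n : ℕ}
    (T : ContinuousMultilinearMap ℂ (fun _ : Fin n => A) W) : SeparableSpace (gen l T) := by
  have h : Continuous fun p : A × (Fin n → A) => l p.1 (T p.2) :=
    (l.continuous.comp continuous_fst).clm_apply (T.cont.comp continuous_snd)
  exact ((isSeparable_range h).span.closure).separableSpace

theorem exists_of_sub' {D : Type u} [NormedAddCommGroup D] [NormedSpace ℂ D]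
    (l : A →L[ℂ] (D →L[ℂ] ℂ) →L[ℂ] (D →L[ℂ] ℂ)) (hl : ∀ a b F, l (a * b) F = l a (l b F))
    (h1 : ∀ F, l 1 F = F) (hn : ∀ a F, ‖l a F‖ ≤ ‖a‖ * ‖F‖)
    (X : Submodule ℂ (D →L[ℂ] ℂ)) (hX : ∀ a, ∀ F ∈ X, l a F ∈ X)
    (hc : IsClosed (X : Set (D →L[ℂ] ℂ))) {P : Prop} (hs : P → SeparableSpace X) {m : ℕ}
    (h : ¬ (subMod l hl X hX).SuccCohomologyVanishes m) :
    ∃ (X : Type u) (_ : NormedAddCommGroup X) (_ : NormedSpace ℂ X) (_ : CompleteSpace X)
      (M : Bimodule A X), M.IsSymmetric ∧ (∀ x, M.l 1 x = x) ∧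
        (∀ a x, ‖M.l a x‖ ≤ ‖a‖ * ‖x‖) ∧ (P → SeparableSpace X) ∧
        ¬ M.SuccCohomologyVanishes m :=
  ⟨X, inferInstance, inferInstance, hc.completeSpace_coe, subMod l hl X hX, fun _ _ => rfl,
    fun x => Subtype.ext (h1 x), fun a x => hn a x, hs, h⟩

theorem actG_one (F : (A →L[ℂ] W) →L[ℂ] ℂ) : actG A W 1 F = F := by
  ext ψ
  simp only [actG_apply]
  congr 1
  ext c
  simp

theorem norm_actG_le (a : A) (F : (A →L[ℂ] W) →L[ℂ] ℂ) : ‖actG A W a F‖ ≤ ‖a‖ * ‖F‖ := by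
  refine ContinuousLinearMap.opNorm_le_bound _ (by positivity) fun ψ => ?_
  rw [actG_apply]
  refine (F.le_opNorm _).trans ?_
  have h := (ψ.opNorm_comp_le (ContinuousLinearMap.mul ℂ A a)).trans
    (mul_le_mul_of_nonneg_left (ContinuousLinearMap.opNorm_mul_apply_le ℂ A a) (norm_nonneg ψ))
  calc _ ≤ ‖F‖ * (‖ψ‖ * ‖a‖) := mul_le_mul_of_nonneg_left h (norm_nonneg F)
    _ = ‖a‖ * ‖F‖ * ‖ψ‖ := by ring

end Abstract

variable (Ω : Type*) [TopologicalSpace Ω] [CompactSpace Ω] (k : ℕ)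

/-- the small coefficient space -/
noncomputable def YY : Submodule ℂ (WW Ω (k + 1)) :=
  gen (act Ω (k + 1)) (cocyG (act Ω (k + 1)) (iot Ω (k + 1)))

theorem act_one (F : WW Ω k) : act Ω k 1 F = F := actG_one F

theorem norm_act_le (a : C(Ω, ℂ)) (F : WW Ω k) : ‖act Ω k a F‖ ≤ ‖a‖ * ‖F‖ := norm_actG_le a F

theorem YY_le : YY Ω k ≤ XX Ω k :=
  gen_le (act Ω (k + 1)) (cocyG (act Ω (k + 1)) (iot Ω (k + 1))) (isClosed_XX Ω k)
    fun a c => act_mem a (cocy_mem c)

theorem cocy_mem_YY (c : Fin (k + 2) → C(Ω, ℂ)) :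
    cocyG (act Ω (k + 1)) (iot Ω (k + 1)) c ∈ YY Ω k := by
  have h := mem_gen (act Ω (k + 1)) (cocyG (act Ω (k + 1)) (iot Ω (k + 1))) 1 c
  rw [act_one] at h
  exact h

theorem act_mem_YY (a : C(Ω, ℂ)) : ∀ F ∈ YY Ω k, act Ω (k + 1) a F ∈ YY Ω k :=
  act_mem_gen (act Ω (k + 1)) act_mul (cocyG (act Ω (k + 1)) (iot Ω (k + 1))) a

theorem isClosed_YY : IsClosed (YY Ω k : Set (WW Ω (k + 1))) :=
  isClosed_gen (act Ω (k + 1)) (cocyG (act Ω (k + 1)) (iot Ω (k + 1)))

theorem separable_YY [T2Space Ω] (h : SecondCountableTopology Ω) : SeparableSpace (YY Ω k) :=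
  separable_gen (act Ω (k + 1)) (cocyG (act Ω (k + 1)) (iot Ω (k + 1)))

/-- the small symmetric bimodule -/
noncomputable def modY : Bimodule C(Ω, ℂ) (YY Ω k) :=
  subMod (act Ω (k + 1)) act_mul (YY Ω k) (act_mem_YY Ω k)

variable {Ω k}

theorem exists_good' (h : (modY Ω k).SuccCohomologyVanishes (k + 1)) : Nonempty (Good Ω k) := by
  obtain ⟨S, hSY, hS⟩ := exists_split _ _ _ _ (iot Ω (k + 1)) (cocy_mem_YY Ω k) h
  have hSX : ∀ a, S a ∈ XX Ω k := fun a => YY_le Ω k (hSY a)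
  let v : ContinuousMultilinearMap ℂ (fun _ : Fin (k + 1) => C(Ω, ℂ)) (WW Ω (k + 1)) :=
    iot Ω (k + 1) - S
  have hv : ∀ a x, v a (evM x) = ∏ i, a i (x i.succ) - S a (evM x) :=
    fun a x => by rw [← iot_evM]; rfl
  let val : (Fin (k + 2) → Ω) → MultilinearMap ℂ (fun _ : Fin (k + 1) => C(Ω, ℂ)) ℂ := fun x =>
    ((ContinuousLinearMap.apply ℂ ℂ (evM x)).compContinuousMultilinearMap v).toMultilinearMap
  have hval : ∀ x a, val x a = v a (evM x) := fun _ _ => rfl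
  have hv0 : 0 ≤ ‖v‖ := v.opNorm_nonneg
  refine ⟨⟨val, ‖v‖, hv0, fun a => ?_, fun x a => ?_, fun a ha m hm x hx => ?_,
    fun x a => ?_, fun y a => ?_⟩⟩
  · simp only [hval, hv]
    exact Continuous.sub (by fun_prop) (hSX a).1
  · exact (((v a).le_opNorm _).trans
      (mul_le_of_le_one_right (norm_nonneg _) (norm_evM_le x))).trans (v.le_opNorm a)
  · have e := testF_map (v a).toLinearMap (m ^ 2) fun u w => evM (x u w)
    simp only [hval]
    refine (le_of_eq (congrArg _ e.symm)).trans (((v a).le_opNorm _).trans ?_)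
    exact mul_le_mul ((v.le_opNorm a).trans (mul_le_of_le_one_right hv0
      (Finset.prod_le_one (fun _ _ => norm_nonneg _) fun i _ => ha i))) (norm_test_le m hm x hx)
      (ContinuousLinearMap.opNorm_nonneg _) hv0
  · have e : (val x : _ → ℂ) = fun a => iot Ω (k + 1) a (evM x) - S a (evM x) := rfl
    rw [e, cob_sub, ← cobE_evM, ← cobE_evM, hS, sub_self]
  · simp only [hval, hv, mul_sub, Finset.sum_sub_distrib, (hSX a).2 y, sub_zero, comp]

theorem not_vanishes' [T2Space Ω] (hΩ : ∀ r, (derivedSet^[r] (Set.univ : Set Ω)).Nonempty) :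
    ¬ (modY Ω (k + 1)).SuccCohomologyVanishes (k + 2) := fun h =>
  (exists_good' h).elim fun G => (exists_ind G hΩ).elim no_ind

theorem exists_module {Ω : Type u} [TopologicalSpace Ω] [CompactSpace Ω] [T2Space Ω]
    (hΩ : ∀ r, (derivedSet^[r] (Set.univ : Set Ω)).Nonempty) (k : ℕ) :
    ∃ (X : Type u) (_ : NormedAddCommGroup X) (_ : NormedSpace ℂ X) (_ : CompleteSpace X)
      (M : Bimodule C(Ω, ℂ) X), M.IsSymmetric ∧ (∀ x, M.l 1 x = x) ∧
        (∀ a x, ‖M.l a x‖ ≤ ‖a‖ * ‖x‖) ∧ (SecondCountableTopology Ω → SeparableSpace X) ∧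
        ¬ M.SuccCohomologyVanishes (k + 2) :=
  exists_of_sub' (act Ω (k + 2)) act_mul (act_one Ω (k + 2)) (norm_act_le Ω (k + 2))
    (YY Ω (k + 1)) (act_mem_YY Ω (k + 1)) (isClosed_YY Ω (k + 1)) (separable_YY Ω (k + 1))
    (not_vanishes' hΩ)

end Pool.Agent.Work.MP_92c8f1_an.Sep
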